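import Mathlib
import Pool.Agent.Q64.L.BB
import Pool.Agent.Q64.L.InstC

/-!
# The rank formula of Beilinson and Bloch over function fields for the products of arbitrary
varieties with the abelian varieties of almost all slope types of all CM fields

Let `K i` (`i` in a finite set) be CM fields of degree `2 g i`. Nothing is assumed about their
Galois groups. They are pairwise independent: for `i ≠ k` and all complex embeddings `φ` of `K i`
and `ψ` of `K k` some automorphism of `ℂ` is the identity on `φ (K i)` and the complex conjugation
on `ψ (K k)` (this is no condition if there is only one field). We fix an isomorphism `ν` of the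
algebraic closure of `ℚ_p` with `ℂ`; it defines a `p`-adic valuation of `ℂ`, with the value one at
`p`. Let `M i` be a function with nonzero integral values, all of which divide `n i`, on the
complex embeddings of `K i`, invariant under complex conjugation. A CM type `Φ i` of `K i` (a
choice of one element out of each complex conjugate pair of embeddings; there are `2 ^ (g i)`
types), `M i` and a real number `κ ≠ 0` prescribe the slopes `(a + κ M) / 2` (at the embeddings in
`Φ i`) and `(a - κ M) / 2` (outside of `Φ i`) of a Weil number for `p ^ a` in `K i` (`HasType`).
The case `M = 1`, `κ = a` is the case of ordinary abelian varieties; the assumption on `M` says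
that `a / 2` is not a slope.

There are `2 ^ (∑ i, g i)` families of CM types `Φ i` of the fields `K i`. A family is exceptional
(`exceptionalFamilies ν K M`) if the following statement (`Holds`) is false for it. Let `π i` be
Weil numbers for `q = p ^ a` that generate the fields `K i` and have the slope types `Φ i`, `M i`,
and let `f i` be monic polynomials whose complex roots are conjugates of `π i` (`IsPolyOf`), for
instance the characteristic polynomials of Frobenius of the abelian varieties in the isogeny
classes of the `π i` over the field with `q` elements. Let `A` be an abelian variety over the field
with `Q = q ^ s` elements which is isogenous to a product of powers of abelian varieties coming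
from the field with `q` elements, with characteristic polynomials `f i`. Let `C` be a smooth
projective geometrically connected curve over the field with `Q` elements, `k` its function field,
and let `Z` be **any** smooth projective variety over `k` such that

* the eigenvalues `ρ` of Frobenius on the cohomology groups `H^1(C, j_* H^i(Z))` of `C` over an
  algebraic closure (the numbers for which `Q ^ (- s) = ρ ^ (- 1)` is a zero of the `L`-function of
  `H^i(Z)`) and their conjugates are unrelated to the fields `K i` (`UnrelatedTo`): a function `n`
  on the complex embeddings of `K i` with `n (conj φ) = - n φ` which is invariant under all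
  automorphisms of `ℂ` that fix a power of `ρ` is zero. This is so if for each embedding `ψ` of
  `K i` some automorphism which fixes a power of `ρ` is the complex conjugation on `ψ (K i)`: for
  instance, if a power of `ρ` lies in a field linearly disjoint from the normal closures of the
  `K i`, or in a totally real field. It is also so if the degree of `ρ` is less than twice the
  dimension of each nonzero space of functions `n` stable under all automorphisms of `ℂ`;
* the Frobenius endomorphism of the scheme `Z` (`f ↦ f ^ Q`) satisfies on each group
  `CH^j(A × Z)_0` a nonzero polynomial with rational coefficients whose complex roots are unrelated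
  to the `K i`.

Both conditions are fulfilled if `Z` is the generic fibre of a smooth projective variety over the
field with `Q` elements which is mapped to `C`, whose motive is finite-dimensional (Kimura; for
instance, if it is dominated by a product of curves) and whose eigenvalues of Frobenius are
unrelated to the `K i`.

**The formula `dim CH^j(X)_0 = ord_(s = j) L(H^(2 j - 1)(X), s)` is true for `X = A × Z` and all
`j ≤ n` if and only if it is true for `X = Z` and all `j ≤ n`**, for every `n`. So the assertion of
the question for `A × Z` is equivalent to the assertion for `Z`. No case of the conjectures is
assumed. The proof also shows that the formulas for `Z` in the codimensions `j - k`,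
`0 ≤ k ≤ dim A`, imply the one for `A × Z` in codimension `j`.

The `L`-function of `H^i(X)` is the alternating product of the characteristic polynomials of
Frobenius on the groups `H^a(C, j_* H^i(X))`, `a = 0, 1, 2`, over an algebraic closure
(Grothendieck), which are pure of weight `i + a` (Deligne); so for `i = 2 j - 1` its order of
vanishing at `s = j` is the multiplicity of the eigenvalue `Q ^ j` on the group with `a = 1`. In
this form the order appears in the theorem (`multN`, `multM`; `RankFormulaN`, `RankFormulaM`).

The other results in this folder are about constant varieties (abelian varieties, and varieties
whose odd cohomology is generated by abelian varieties of special kinds) and about twists of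
hyperelliptic curves; here `Z` is an arbitrary variety, in general not constant, and the formula
for it is not assumed.

What is used of `A` are known theorems (`IsAbelian`): `H(A)` is generated by `H^1`, Frobenius is
diagonalizable on `H^1` (Weil), the theorem of Tate on divisors, and the nilpotence of
homologically trivial correspondences (Kimura). There are two theories relative to `Z`, modelled by
`RelData`: the homologically trivial cycles modulo rational equivalence with rational coefficients
`T` (the group of bidegree `(2 j, j)` is `CH^j(Z)_0`, resp. `CH^j(A × Z)_0`; on it the Frobenius
endomorphism is the multiplication by `Q ^ j`, `IsPure`), and the theory `R` whose group of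
bidegree `(i, j)` is `H^1(C, j_* H^i(Z))`, resp. `H^1(C, j_* H^i(A × Z))`, over an algebraic
closure (it does not depend on the second number), a vector space over the coefficient field `L`.
Their formal properties are in `IsTheory`: degrees, products with classes on `A`, push-forward to
`Z`, the projection formula, the operation of the correspondences of `A` and of the Frobenius
endomorphism of `Z`; and in `IsLinear`, `FiniteEig` (finite-dimensional eigenspaces) and
`NoNegative` (nothing in negative degrees).

The theorem bounds the number of the exceptional families: it is at most
`2 ^ (∑ i, g i) * ∑ i, C * (n i) ^ 2 * (1 + log (2 g i)) ^ 16 * min (N ^ 2 * D ^ (1 / 4) / √g, √g / q)`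
with an absolute constant `C`. Here, for `K = K i` and `g = g i`, `N` is the number of the CM
subfields of `K` (with `K`), `D = D i ≥ 1` is a bound for the degrees of the CM subfields of `K`
that are normal over `ℚ` with a nonabelian Galois group, and `q = q i` is any prime factor of `g`
(or `q = 1`). So the exceptional types are a proportion `O (n ^ 2 * g ^ (-1 / 4) * (log g) ^ 16)`
of all types of all CM fields with a bounded number of CM subfields,
`O (n ^ 2 * g ^ (-1 / 2) * (log g) ^ 16)` if the normal nonabelian ones have bounded degrees, and
`O (n ^ 2 * g ^ (-δ) * (log g) ^ 16)` for all CM fields, with any number of subfields, whose degree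
is divisible by a prime number `q ≥ g ^ (1 / 2 + δ)`. Some assumption is necessary: almost all
types of a multiquadratic CM field are degenerate. The counting part (the bound for the number of
the degenerate types) is the one of `AllCMFields` (MP_e12fcd_ag), by helper1 and others of this
team.

The proof. Suppose that the product of `ρ` and of some eigenvalues `φ (π i)` of `A`, no two of them
complex conjugate, is a power of `q`, up to a root of unity. For an automorphism `σ` of `ℂ` the
`p`-adic valuations of the images under `σ` give a linear relation between the signed weights
`± M i (σ φ)` whose right side is a function of the valuation of `σ ρ`. It does not change if `σ`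
is multiplied by an automorphism `τ` which fixes a power of `ρ`. The difference of the two
relations is homogeneous; if the types are not degenerate it is trivial, so that the differences of
the exponents of complex conjugate embeddings are invariant under `τ`. So they are zero, as `ρ` is
unrelated to the fields `K i`. It follows that the correspondence on `A` given by the sum of the
products of dual classes of divisor products acts as the identity on the part of the theories of
`A × Z` in question: on the generalized eigenspace of the Frobenius endomorphism of `A × Z` for
`Q ^ j`, the Frobenius endomorphism of `A` satisfies a power of the polynomial reciprocal to that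
of the Frobenius endomorphism of `Z`; this polynomial is prime to the one whose value on `H(A)`
lies in the part generated by divisors, and the difference of the two correspondences is nilpotent.
So `CH^j(A × Z)_0` is the direct sum of copies of the groups `CH^(j - c)(Z)_0`, and the generalized
eigenspace for `Q ^ j` on `H^1(C, j_* H^(2 j - 1)(A × Z))` is the direct sum of the same number of
copies of those for `Q ^ (j - c)` on `H^1(C, j_* H^(2 (j - c) - 1)(Z))`. Both sides of the formula
are additive, and one concludes by induction on `j`.
-/

set_option autoImplicit false

namespace Pool.Agent.Results.MP_0b9e0b_ag.AllCMTypesTimes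

open NumberField Module Pool.Agent.H204R3.CM Pool.Agent.H977R3.CM Pool.Agent.TH170
  Pool.Agent.Y1.KN Pool.Agent.Y1.CT Pool.Agent.Q64.L

/-- The statement `RankReduces` holds for all abelian varieties `A` whose Frobenius eigenvalues are
powers of conjugates of Weil numbers with the slope types `Φ i`, `M i`, and all varieties unrelated
to the fields `K i`. -/
def Holds {p : ℕ} [Fact p.Prime] (ν : PadicAlgCl p ≃+* ℂ) {I : Type} (K : I → Type)
    [∀ i, Field (K i)] [∀ i, NumberField (K i)] [∀ i, IsCMField (K i)]
    (M : ∀ i, (K i →+* ℂ) → ℤ) (Φ : ∀ i, Set (K i →+* ℂ)) : Prop :=
  ForAllTypes ν K M (fun q f => RankReduces (UnrelatedRoots K) q f) Φ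

/-- The exceptional families of CM types. -/
def exceptionalFamilies {p : ℕ} [Fact p.Prime] (ν : PadicAlgCl p ≃+* ℂ) {I : Type} (K : I → Type)
    [∀ i, Field (K i)] [∀ i, NumberField (K i)] [∀ i, IsCMField (K i)]
    (M : ∀ i, (K i →+* ℂ) → ℤ) : Set (∀ i, Set (K i →+* ℂ)) :=
  {Φ | (∀ i, IsCMType (Φ i)) ∧ ¬ Holds ν K M Φ}

/-- **The rank formula of Beilinson and Bloch holds for `A × Z` if and only if it holds for `Z`,
for the constant abelian varieties `A` of almost all slope types of all CM fields and all unrelated
varieties `Z` over function fields.** -/
theorem result :
    ∃ C : ℝ, 0 ≤ C ∧ ∀ (p : ℕ) [Fact p.Prime] (ν : PadicAlgCl p ≃+* ℂ) (I : Type) [Fintype I]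
      (K : I → Type) [∀ i, Field (K i)] [∀ i, NumberField (K i)] [∀ i, IsCMField (K i)]
      (M : ∀ i, (K i →+* ℂ) → ℤ) (n g q : I → ℕ) (D : I → ℝ), PairwiseIndep K →
      (∀ i φ, M i (ComplexEmbedding.conjugate φ) = M i φ) → (∀ i, n i ≠ 0) →
      (∀ i φ, M i φ ∣ (n i : ℤ)) → (∀ i, finrank ℚ (K i) = 2 * g i) →
      (∀ i, q i ∣ g i ∧ (q i = 1 ∨ (q i).Prime)) → (∀ i, 1 ≤ D i) →
      (∀ (i : I) (L : IntermediateField ℚ (K i)), IsCMField L → IsGalois ℚ L →
        ¬ IsAbelianGalois ℚ L → (finrank ℚ L : ℝ) ≤ D i) →
      ((exceptionalFamilies ν K M).ncard : ℝ) ≤
        2 ^ (∑ i, g i) * ∑ i, C * (n i : ℝ) ^ 2 * ((1 + Real.log (2 * g i)) ^ 16 *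
          min ((numCMSubfields (K i) : ℝ) ^ 2 * D i ^ (1 / 4 : ℝ) / √(g i)) (√(g i) / q i)) := by
  obtain ⟨C, hC0, hC⟩ := countC
  refine ⟨C, hC0, ?_⟩
  intro p _ ν I _ K _ _ _ M n g q D hind hM hn hMn hg hq hD hDF
  exact hC p ν I K M n g q D hind hM hn hMn hg hq hD hDF _
    fun Q f hQ hG => rankReduces hQ hG

end Pool.Agent.Results.MP_0b9e0b_ag.AllCMTypesTimes
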