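import Mathlib
import Pool.Agent.Q64.L.BB
import Pool.Agent.Q64.L.InstA

/-!
# The rank formula of Beilinson and Bloch over function fields for the products of arbitrary
varieties with almost all abelian varieties

Let `g i` (`i` in a finite set `I`) be positive integers, `r` an integer smaller than all the `g i`
and `E` a number field.  For a prime power `q` let `S i` be the set of the characteristic
polynomials of Frobenius of the ordinary abelian varieties of dimension `g i` over the field with
`q` elements, or of all abelian varieties of dimension `g i`, or any set in between.  By Weil,
Honda and Tate its elements correspond to the isogeny classes, the first set contains
`ordinaryWeilPolys q (g i)`, and the second one is contained in `weilPolys q (g i)`.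

For almost all families `f i` in `S i` (`AlmostAll`: with the exception of a proportion
`O (q ^ (-1 / 6) log q)`, the constant depending only on `g`, `r` and `E`) the following holds for
all `s > 0`, `Q = q ^ s`, all abelian varieties `A` over the field with `Q` elements which are
isogenous to products of powers of abelian varieties coming from the field with `q` elements, with
characteristic polynomials `f i`, all function fields `k` of smooth projective geometrically
connected curves `C` over the field with `Q` elements, and **all** smooth projective varieties `Z`
over `k` such that

* the eigenvalues of Frobenius on the cohomology groups `H^1(C, j_* H^i(Z))` of `C` over an
  algebraic closure (the numbers `ρ` for which `Q ^ (- s) = ρ ^ (- 1)` is a zero of the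
  `L`-function of `H^i(Z)`) and their conjugates generate a group of rank at most `r` modulo the
  group of the numbers with a power in `E` (for `r = 0`: they have powers in `E`; for a given `Z`,
  defined over a function field with `q'` elements in its field of constants, one can take for `E`
  the field generated by the eigenvalues and their conjugates, and apply the theorem to the powers
  `q` of `q'`);
* the Frobenius endomorphism of the scheme `Z` (`f ↦ f ^ Q`) satisfies on each group
  `CH^j(A × Z)_0` a nonzero polynomial with rational coefficients whose complex roots have the same
  property.

Both conditions are fulfilled if `Z` is the generic fibre of a smooth projective variety over the
field with `Q` elements which is mapped to `C`, whose motive is finite-dimensional (Kimura; for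
instance, if it is dominated by a product of curves) and whose eigenvalues of Frobenius have the
property above.

**The formula `dim CH^j(X)_0 = ord_(s = j) L(H^(2 j - 1)(X), s)` is true for `X = A × Z` and all
`j ≤ n` if and only if it is true for `X = Z` and all `j ≤ n`**, for every `n`. So the assertion of
the question for `A × Z` is equivalent to the assertion for `Z`. No case of the conjectures is
assumed. The proof also shows that the formulas for `Z` in the codimensions `j - k`,
`0 ≤ k ≤ dim A`, imply the one for `A × Z` in codimension `j`.

The `L`-function of `H^i(X)` is the alternating product of the characteristic polynomials of
Frobenius on the groups `H^a(C, j_* H^i(X))`, `a = 0, 1, 2`, over an algebraic closure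
(Grothendieck), which are pure of weight `i + a` (Deligne); so for `i = 2 j - 1` its order of
vanishing at `s = j` is the multiplicity of the eigenvalue `Q ^ j` on the group with `a = 1`. In
this form the order appears in the theorem (`multN`, `multM`; `RankFormulaN`, `RankFormulaM`).

The other results in this folder are about constant varieties (abelian varieties, and varieties
whose odd cohomology is generated by abelian varieties of special kinds) and about twists of
hyperelliptic curves; here `Z` is an arbitrary variety, in general not constant, and the formula
for it is not assumed.

What is used of `A` are known theorems (`IsAbelian`): `H(A)` is generated by `H^1`, Frobenius is
diagonalizable on `H^1` (Weil), the theorem of Tate on divisors, and the nilpotence of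
homologically trivial correspondences (Kimura). There are two theories relative to `Z`, modelled by
`RelData`: the homologically trivial cycles modulo rational equivalence with rational coefficients
`T` (the group of bidegree `(2 j, j)` is `CH^j(Z)_0`, resp. `CH^j(A × Z)_0`; on it the Frobenius
endomorphism is the multiplication by `Q ^ j`, `IsPure`), and the theory `R` whose group of
bidegree `(i, j)` is `H^1(C, j_* H^i(Z))`, resp. `H^1(C, j_* H^i(A × Z))`, over an algebraic
closure (it does not depend on the second number), a vector space over the coefficient field `L`.
Their formal properties are in `IsTheory`: degrees, products with classes on `A`, push-forward to
`Z`, the projection formula, the operation of the correspondences of `A` and of the Frobenius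
endomorphism of `Z`; and in `IsLinear`, `FiniteEig` (finite-dimensional eigenspaces) and
`NoNegative` (nothing in negative degrees).

The proof: by a sieve (helper521), which only uses the primes that split completely in the Galois
closure of `E` - these have positive density by the theorem of Chebotarev, formalized by helper401
- almost all families are such that each pair `α`, `q / α` of roots can be exchanged by a Galois
automorphism which fixes all the other roots of all the `f i` and also all elements of `E`. It
follows that the correspondence on `A` given by the sum of the products of dual classes of divisor
products acts as the identity on the part of the theories of `A × Z` in question: on the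
generalized eigenspace of the Frobenius endomorphism of `A × Z` for `Q ^ j`, the Frobenius
endomorphism of `A` satisfies a power of the polynomial reciprocal to that of the Frobenius
endomorphism of `Z`; this polynomial is prime to the one whose value on `H(A)` lies in the part
generated by divisors, and the difference of the two correspondences is nilpotent. So
`CH^j(A × Z)_0` is the direct sum of copies of the groups `CH^(j - c)(Z)_0`, and the generalized
eigenspace for `Q ^ j` on `H^1(C, j_* H^(2 j - 1)(A × Z))` is the direct sum of the same number of
copies of those for `Q ^ (j - c)` on `H^1(C, j_* H^(2 (j - c) - 1)(Z))`. Both sides of the formula
are additive, and one concludes by induction on `j`.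
-/

set_option autoImplicit false

namespace Pool.Agent.Results.MP_0b9e0b_ag.AlmostAllTimes

open Pool.Agent.Y156.L Pool.Agent.Q64.L

/-- **The rank formula of Beilinson and Bloch holds for `A × Z` if and only if it holds for `Z`,
for almost all abelian varieties `A` and all varieties `Z` over function fields of small Frobenius
rank.** -/
theorem result {I : Type} [Fintype I] (g : I → ℕ) (r : ℕ) (hr : ∀ i, r < g i)
    (E : IntermediateField ℚ ℂ) [FiniteDimensional ℚ E] :
    AlmostAll g fun q F => RankReduces (RootsRank E r) q F :=
  countA g r hr E (fun q F => RankReduces (RootsRank E r) q F) fun _ _ hq hG => rankReduces hq hG

end Pool.Agent.Results.MP_0b9e0b_ag.AlmostAllTimes
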