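import Pool.Agent.Q70.BB.Main

/-!
# The formula of Beilinson and Bloch for constant varieties generated by abelian varieties, in all odd
degrees

Let `q = p ^ n`, let `X₀` be a smooth projective variety and `C` a smooth projective geometrically
connected curve over the field `𝔽` with `q` elements, with the Jacobian variety `J`; let `K` be the
function field of `C` and `X = X₀ ⊗ K` the constant variety. `V` is the cohomology group
`H^{2 k + 1}(X₀)`, with coefficients extended to the complex numbers, `Fr` its Frobenius endomorphism,
`A` is the subspace of `V ⊗ H^1(C)` spanned by the classes of the algebraic cycles of codimension
`k + 1` on `X₀ × C` (on these, the Frobenius endomorphism is the multiplication by `q ^ (k + 1)`: the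
hypothesis `hA`), `P` is the set of the closed points of `C`, that is, of the places of `K`. Since `X`
has good reduction everywhere, the `L`-function of `H^{2 k + 1}(X)` is the product over `P` of
`det (1 - q ^ (- s deg v) Fr ^ deg v)⁻¹`.

Suppose that `V` is the sum of the images of finitely many homomorphisms `Γ : H^{2 m + 1}(Y) → V`, given
by algebraic correspondences between `X₀` and abelian varieties `Y` over `𝔽` (`Piece`), such that (i)
`Y × J` has dimension at most five, or (ii) `Y × J` is isogenous over an algebraic closure of `𝔽` to a
product of a supersingular abelian variety (of any dimension) and of abelian varieties of dimension at
most three, any two of which that have dimension three, are not supersingular and not isogenous and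
whose CM fields have the same Galois closure have CM fields that are Galois over `ℚ` (`IsGoodAVS`);
for example, **`Y` and `J` are products of elliptic curves and abelian surfaces** (any number of
factors). The definitions of `RedAV`, `IsGoodAVS`, `Coh`, `frobCoh`, `IsCurve` are those of
`MP_af4e75_ag.ConstantFiveAndSurfaces` and of the modules which it uses: an abelian variety over the
field with `p ^ a` elements is given, up to isogeny, by CM algebras with CM types and by Weil numbers
which satisfy the formula of Shimura and Taniyama (Honda, Tate).

Theorem. The Euler product converges for `Re s > k + 3 / 2` and has a meromorphic continuation to the
complex plane, and the order of the continuation at `s = k + 1` is the dimension of `A`.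

Consequences. Let `i = k + 1`. If the motives of `X₀` and `C` are generated in this way by the same kind of
abelian varieties in all degrees then, by the theorem of Kahn (based on Kimura, O'Sullivan, Soulé,
Geisser), rational and numerical equivalence agree on `X₀ × C` and the dimension of `A` is that of
`CH^i(X)_0`: the formula of Beilinson and Bloch holds for `X = X₀ ⊗ K` in codimension `i`. Examples:
`X₀` is a product of curves of genus at most two, of elliptic curves and of abelian surfaces, or a
generalised Kummer variety or a Hilbert scheme or a moduli space of sheaves on a product of an abelian
surface with such varieties, or a cubic threefold whose intermediate Jacobian is a product of elliptic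
curves and abelian surfaces, or any variety dominated by such a product, and `C` is any curve such that
`J` is isogenous over an algebraic closure to a product of elliptic curves and abelian surfaces (for
instance of genus at most two). The rank is unbounded already for fixed `k` and fixed genus of `C`.

What is used about `Γ` is only that it is compatible with the Frobenius endomorphisms and that
`Γ ⊗ 1` maps to `A` those Tate classes in `H^{2 m + 1}(Y) ⊗ H^1(C)` whose classes in `H^{2 m + 2}(Y × J)`
belong to `AlgS`, the smallest system of cohomology classes of abelian varieties over finite fields that
contains the Tate classes of degree two, the reductions of the split Weil classes of imaginary quadratic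
fields on abelian fourfolds and sixfolds of CM type, and the reductions of the Hodge classes of degree
four on products of elliptic curves and abelian surfaces, and that is stable under linear combinations,
cup products, pull-backs along homomorphisms and push-forwards along projections. These classes are
algebraic by theorems of Tate, Markman and Ramón Marí.

The starting files of this problem are about constant abelian varieties `X₀` only (and, for these, about
fields `K` whose relations are of other kinds: generic Galois groups, few slopes, almost all slope
types); a special case in which `X₀` is an abelian variety, for a class of abelian varieties that
does not contain all products of abelian surfaces (`HasElementaryRelations`), is proved in the helper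
file `Pool.Agent.TH117.BL.Const` of the starting tree.
-/

set_option autoImplicit false

namespace Pool.Agent.Results.MP_0b9e0b_ag.ConstantGeneratedVarieties

open Module Pool.Agent.W495.TA Pool.Agent.TH117.BL Pool.Agent.Q70.BB
open scoped TensorProduct

/-- **The formula of Beilinson and Bloch for constant varieties over function fields of curves** whose
cohomology of degree `2 k + 1` is generated by abelian varieties `Y` such that `Y × J` has dimension at
most five, or small factors (for example, if `Y` and `J` are products of elliptic curves and abelian
surfaces). -/
theorem result (p : ℕ) [Fact p.Prime] (ν : PadicAlgCl p ≃+* ℂ) (n k : ℕ) (J : RedAV p ν)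
    (hJ : J.a = n) {V : Type} [AddCommGroup V] [Module ℂ V] (Fr : V →ₗ[ℂ] V)
    (A : Submodule ℂ (VJ V J)) (hA : ∀ t ∈ A, frobVJ Fr J t = ((p : ℂ) ^ n) ^ (k + 1) • t)
    {ι : Type} [Finite ι] (S : ι → Piece p ν n k Fr J A)
    (hS : ⨆ i, LinearMap.range (S i).Γ = ⊤) {P : Type} (deg : P → ℕ)
    (hP : IsCurve J (p ^ n) deg) :
    ∃ Λ : ℂ → ℂ, IsLSeries (p ^ n) k deg Fr Λ ∧
      meromorphicOrderAt Λ ((k : ℂ) + 1) = ((finrank ℂ A : ℤ) : WithTop ℤ) :=
  main n k J hJ Fr A hA S hS deg hP

end Pool.Agent.Results.MP_0b9e0b_ag.ConstantGeneratedVarieties
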