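import Mathlib
import Pool.Agent.Q70.SQ.BBMain

/-!
# The formula of Beilinson and Bloch for constant ordinary abelian varieties over the function fields
of curves with arbitrary non-ordinary part

Let `q = p ^ a` and let `A` be an ordinary abelian variety, of any dimension, over the field with `q`
elements, isogenous to a product of powers of abelian varieties with characteristic polynomials of
Frobenius `f i` (`i` in a finite set), the complex roots of `f i` being the conjugates of an ordinary
Weil number `π i` for `q` in a CM field `F i` (`IsPolyOf`). We suppose (the generic case; the first
condition is true, for example, if the Galois group of the normal closure of `F i` consists of all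
permutations of the embeddings compatible with the complex conjugation, or if only some automorphism
exchanges one embedding with its complex conjugate and fixes all the others):

* the functions `n` on the complex embeddings of `F i` with `n (conj φ) = - n φ` are an absolutely
  irreducible representation of the automorphisms of `ℂ` (`OddAbsolutelyIrreducible`), and there are
  no equivariant maps between those of `F i` and `F i'` for `i ≠ i'` (`Unrelated`).

Let `C` be a smooth projective geometrically connected curve over the same field, `k` its function
field. Suppose that each eigenvalue `ρ` of Frobenius on `H ^ 1 (C)` is of one of the following kinds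
(`CurveEigenFor`):

* `ρ` is the product of a root of unity and of a root of one of the `f i` (for instance if `ρ` comes
  from a factor of the Jacobian of `C` which over a finite extension is isogenous to a factor of `A`);
* `ρ` is unrelated to the fields `F i` (`UnrelatedTo`): a function `n` as above on the embeddings of
  `F i` which is invariant under all automorphisms of `ℂ` that fix a power of `ρ` is zero;
* **`ρ` is not ordinary**: some slope of a conjugate of `ρ` is neither `0` nor `1` (`NotOrdinary`).

Let `X = A_k`. Then for all `i = k + 1 ≥ 1` **the order of vanishing of `L (H ^ (2 i - 1) (X), s)` at
`s = i` is equal to the dimension of the space `algebraicClasses` of the classes in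
`H ^ (2 i - 1) (A) ⊗ H ^ 1 (C)` which are linear combinations of products of `i - 1` classes of
divisors on `A` and a correspondence between `A` and `C`** (`BeilinsonBlochFor`). As in the starting
files (`AllCMTypesConstant`, `ConstantFlippedFrobenius`) the theorems of Tate and of Kahn imply that the
dimension of `algebraicClasses` is that of `CH ^ i (X)_0`: the formula of Beilinson and Bloch holds.
The rank can be positive, for instance if `C` is a curve on `A` that generates `A`. There is no
condition on the simple factors of the Jacobian of `C` which are not ordinary: their dimensions and
Galois groups are arbitrary, for instance they may be related to the `F i` in any way; so the theorem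
applies, for example, to all curves whose Jacobian has no ordinary factors besides those of `A`.

The second part of the theorem is the general statement: `A` need not be ordinary, it is only supposed
that no `π i` is supersingular, and each `ρ` is of the first kind or a good number: for each `i` it is
unrelated to `F i`, or the mean square deviation `d (ρ)` of its slopes from `1 / 2` is smaller than
`d (π i)`. (`deviation`, `weilDeviation` are `(log q) ^ 2` times the mean of `(s - 1 / 2) ^ 2` over all
conjugates. It is `1 / 4` for ordinary numbers, and less than `1 / 4` for all others.)

Relation to the starting files. `AllCMTypesConstant` (this folder) is the theorem for the abelian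
varieties of almost all slope types of all CM fields if all `ρ` are of the first two kinds; the
other starting files of this problem are about fixed dimensions and large `q`, few slopes, or flips.
New here is the third kind, for which no condition on Galois groups is needed, and the use of one
slope condition (ordinary) instead of almost all slope types, for absolutely irreducible fields.
Related theorems of this team for the Tate conjecture and other conjectures, over finitely generated
fields and finite fields, are called `SmallSlopeDeviation` (MP_2a05c8_ag, MP_0f183b_ag, MP_5f0950_ag,
MP_0273e8_ag, MP_ffcd14_ag, by helper70).

The proof. A multiplicative relation between `ρ`, a power of `q` and a product of conjugates of the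
`π i` gives, for each automorphism `σ` of a Galois closure `L`, the linear relation
`s (σ ρ) - 1 / 2 = ∑ x, n x (s (σ x) - 1 / 2)` between slopes, up to signs, where the sum is over one
embedding `x` of each conjugate pair and `n x` is the difference of the multiplicities of `x` and
`bar x`. The second moments `∑ σ, (s (σ x) - 1 / 2) (s (σ y) - 1 / 2)` are an invariant form on the odd
functions; it is real valued, but all its compositions with rational functionals `ℝ → ℚ` are rational
invariant forms, and so the slopes at different pairs `x`, `y` are uncorrelated, by Schur's lemma.
Hence `d (ρ) = ∑ x, (n x) ^ 2 d (π x)`, which is impossible if `d (ρ) < d (π i)` and some `n x ≠ 0`.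
-/

set_option autoImplicit false

namespace Pool.Agent.Results.MP_0b9e0b_ag.NonOrdinaryCurves

open NumberField Module Polynomial Pool.Agent.Y137.MV Pool.Agent.Y137.SL Pool.Agent.TH170
  Pool.Agent.TH170.GS Pool.Agent.Q70.SQ

/-- **The formula of Beilinson and Bloch holds, in all codimensions, for the constant ordinary abelian
varieties with absolutely irreducible, unrelated CM fields over the function fields of all curves whose
Frobenius eigenvalues are among those of the abelian variety, unrelated to its fields, or not
ordinary.** The second part is the general statement with mean square deviations of slopes. -/
theorem result :
    (∀ (p : ℕ) [Fact p.Prime] (a : ℕ) (I : Type) [Fintype I] (F : I → Type)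
      [∀ i, Field (F i)] [∀ i, NumberField (F i)] [∀ i, IsCMField (F i)] (π : ∀ i, F i)
      (f : I → ℤ[X]), 0 < a →
      (∀ i, π i * IsCMField.complexConj (F i) (π i) = (p : F i) ^ a) →
      (∀ i, OddAbsolutelyIrreducible (F i)) → (∀ i i', i ≠ i' → Unrelated (F i) (F i')) →
      (∀ i, IsOrdinary p a (π i)) → (∀ i, Pool.Agent.Y1.CT.IsPolyOf (π i) (f i)) →
      BeilinsonBlochFor (UnrelatedOrNotOrdinary p a F) (p ^ a) f) ∧
    (∀ (p : ℕ) [Fact p.Prime] (a : ℕ) (I : Type) [Fintype I] (F : I → Type)
      [∀ i, Field (F i)] [∀ i, NumberField (F i)] [∀ i, IsCMField (F i)] (π : ∀ i, F i)
      (f : I → ℤ[X]), 0 < a →
      (∀ i, π i * IsCMField.complexConj (F i) (π i) = (p : F i) ^ a) →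
      (∀ i, OddAbsolutelyIrreducible (F i)) → (∀ i i', i ≠ i' → Unrelated (F i) (F i')) →
      (∀ i, HasOtherSlope p a (π i)) → (∀ i, Pool.Agent.Y1.CT.IsPolyOf (π i) (f i)) →
      BeilinsonBlochFor (GoodNumber p a π) (p ^ a) f) := by
  refine ⟨?_, ?_⟩
  · intro p _ a I _ F _ _ _ π f ha hw habs hun hord hf
    exact formula_ordinary ha hw habs hun hord hf
  · intro p _ a I _ F _ _ _ π f ha hw habs hun hns hf
    exact formula_of_rel (Nat.one_lt_pow ha.ne' (Fact.out : p.Prime).one_lt) (norm_roots hw hf)
      (noRel_good ha hw habs hun hns f hf)

end Pool.Agent.Results.MP_0b9e0b_ag.NonOrdinaryCurves
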